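import Pool.Agent.H852R2.EX.Par
import Pool.Agent.H852R2.EX.S.OPS
import Pool.Agent.H14R2.RC.Low

/-! RTLOW: traces on the irreducible subspaces of `Lvl j n` -/

namespace RC852
open RC14 Finset Filter

namespace RTLOW

/-- the coercion `Alt n → Perm (Fin n)` commutes with `bwd` -/
theorem coe_bwd {n q m J : ℕ} (x b : Fin q → Alt n)
    (w : Fin J → (Fin (2 * m) → Fin q × Bool) × (Fin q × Bool)) :
    ((bwd (wrd x) b w : Alt n) : Equiv.Perm (Fin n)) = bwd (gx x m) (cb b) w := by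
  have h1 : ((bwd (wrd x) b w : Alt n) : Equiv.Perm (Fin n)) =
      (alternatingGroup (Fin n)).subtype (bwd (wrd x) b w) := rfl
  rw [h1]
  unfold bwd
  rw [map_list_prod, List.map_ofFn]
  congr 1
  congr 1
  funext t
  simp only [Function.comp, blk, sl, gx, cb, Subgroup.subtype_apply]
  split_ifs <;> simp

theorem m0_le (n : ℕ) : (m0 n : ℝ) ≤ Real.exp (-81) * Real.sqrt n :=
  Nat.floor_le (by positivity)

theorem F0_le (n : ℕ) : (F0 n : ℝ) ≤ Real.exp (-80) * n + 1 :=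
  (Nat.ceil_lt_add_one (by positivity)).le

theorem exp80 : Real.exp (-80) ≤ 0.4 * Real.exp (-79) := by
  have h1 : Real.exp (-80) = Real.exp (-1) * Real.exp (-79) := by
    rw [← Real.exp_add]; norm_num
  have h2 : Real.exp (-1) ≤ 0.4 := by
    have := Real.exp_neg_one_lt_d9
    linarith
  rw [h1]
  exact mul_le_mul_of_nonneg_right h2 (Real.exp_pos _).le

theorem exp81 : Real.exp (-81) ≤ 0.16 * Real.exp (-79) := by
  have h1 : Real.exp (-81) = Real.exp (-1) * Real.exp (-80) := by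
    rw [← Real.exp_add]; norm_num
  have h2 : Real.exp (-1) ≤ 0.4 := by
    have := Real.exp_neg_one_lt_d9
    linarith
  have h3 := exp80
  have h4 := Real.exp_pos (-80)
  rw [h1]
  nlinarith [Real.exp_pos (-79)]

theorem bb_le : ∀ᶠ n : ℕ in atTop, 4 ≤ n ∧ ∀ j, 1 ≤ j → j ≤ m0 n → 2 * j + 2 ≤ n ∧
    bb j j n (F0 n) + 1 / (n : ℝ) ≤ Real.exp (-79) := by
  have hs : Tendsto (fun n : ℕ => Real.sqrt n) atTop atTop :=
    Real.tendsto_sqrt_atTop.comp tendsto_natCast_atTop_atTop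
  filter_upwards [eventually_ge_atTop 4, hs.eventually_ge_atTop (16 / Real.exp (-79))]
    with n hn hs
  refine ⟨hn, fun j h1 hj => ?_⟩
  set e := Real.exp (-79) with he
  have he0 : 0 < e := Real.exp_pos _
  have he1 : e ≤ 1 := by
    rw [he]; exact Real.exp_le_one_iff.2 (by norm_num)
  set s := Real.sqrt n with hsdef
  have hn' : (4 : ℝ) ≤ n := by exact_mod_cast hn
  have hs2 : s * s = n := Real.mul_self_sqrt (by positivity)
  have hse : 16 ≤ s * e := by
    rw [div_le_iff₀ he0] at hs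
    exact hs
  have hs0 : 0 ≤ s := Real.sqrt_nonneg _
  have hs16 : 16 ≤ s := by nlinarith
  have hj' : (j : ℝ) ≤ 0.16 * e * s := by
    have h2 : (j : ℝ) ≤ m0 n := by exact_mod_cast hj
    have h3 := m0_le n
    have h4 := exp81
    have h5 : Real.exp (-81) * s ≤ 0.16 * e * s := mul_le_mul_of_nonneg_right h4 hs0
    exact h2.trans (h3.trans h5)
  have hj2 : (j : ℝ) ≤ 0.16 * s := by nlinarith
  have hj3 : (j : ℝ) ≤ n / 4 := by nlinarith
  have hjn : 2 * j + 2 ≤ n := by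
    have : (2 : ℝ) * j + 2 ≤ n := by linarith
    exact_mod_cast this
  refine ⟨hjn, ?_⟩
  have hD : ((n - j : ℕ) : ℝ) = n - j := by
    rw [Nat.cast_sub (by omega)]
  have hD1 : 3 / 4 * (s * s) ≤ ((n - j : ℕ) : ℝ) := by
    rw [hD, hs2]; linarith
  have hDpos : (0 : ℝ) < ((n - j : ℕ) : ℝ) := by nlinarith
  have hsD : 3 / 4 * s ≤ Real.sqrt ((n - j : ℕ) : ℝ) := by
    apply Real.le_sqrt_of_sq_le
    nlinarith
  have hsDpos : 0 < Real.sqrt ((n - j : ℕ) : ℝ) := Real.sqrt_pos.2 hDpos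
  have t1 : 2 * (j : ℝ) / ((n - j : ℕ) : ℝ) ≤ 1 / s := by
    rw [div_le_div_iff₀ hDpos (by linarith)]
    nlinarith
  have t2 : (F0 n : ℝ) / ((n - j : ℕ) : ℝ) ≤ 0.54 * e + 4 / 3 / s := by
    rw [div_le_iff₀ hDpos]
    have h2 := F0_le n
    have h3 := exp80
    have h4 : Real.exp (-80) * n ≤ 0.4 * e * n := mul_le_mul_of_nonneg_right h3 (by positivity)
    have h5 : (0.54 * e + 4 / 3 / s) * (3 / 4 * (s * s)) ≤
        (0.54 * e + 4 / 3 / s) * ((n - j : ℕ) : ℝ) :=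
      mul_le_mul_of_nonneg_left hD1 (by positivity)
    have h6 : (0.54 * e + 4 / 3 / s) * (3 / 4 * (s * s)) = 0.405 * e * (s * s) + s := by
      field_simp
      ring
    rw [h6, hs2] at h5
    nlinarith
  have t3 : (j : ℝ) / Real.sqrt ((n - j : ℕ) : ℝ) ≤ 0.22 * e := by
    rw [div_le_iff₀ hsDpos]
    nlinarith
  have t4 : 1 / (n : ℝ) ≤ 1 / s := by
    apply one_div_le_one_div_of_le (by linarith)
    nlinarith
  have t5 : 4 / s ≤ e / 4 := by
    rw [div_le_div_iff₀ (by linarith) (by norm_num)]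
    linarith
  have t6 : 1 / s + (0.54 * e + 4 / 3 / s) + 0.22 * e + 1 / s ≤ e := by
    have : 1 / s + (0.54 * e + 4 / 3 / s) + 0.22 * e + 1 / s = 0.76 * e + 5 / 6 * (4 / s) := by
      ring
    rw [this]
    linarith
  unfold bb
  linarith

end RTLOW

/-- traces on the irreducible subspaces of `Lvl j n`, `1 ≤ j ≤ m0 n` -/
theorem RTLOW : ∀ᶠ n : ℕ in atTop, ∀ (q m : ℕ) (x b : Fin q → Alt n), 1 ≤ q →
    GoodB (gx x m) (cb b) → ∀ j, 1 ≤ j → j ≤ m0 n →
    ∀ (W : Submodule ℂ (V j n)) (hW : Irr (repA j n) W), W ≤ Lvl j n →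
      RS (repA j n) W hW.2.1 x b m (2 * (32 * j)) ≤
        Real.exp (-(79 * j)) * Module.finrank ℂ W := by
  filter_upwards [RTLOW.bb_le] with n hn
  obtain ⟨hn4, hn⟩ := hn
  intro q m x b hq hG j h1 hj W hW hWL
  obtain ⟨hjn, hb⟩ := hn j h1 hj
  have hJ : 2 * (32 * j) = 64 * j := by ring
  rw [hJ]
  unfold RS
  have hbb := bb_nonneg j j n (F0 n)
  have key := Sop_trace hq (res (repA j n) W hW.2.1) x b m (64 * j)
    (fun h : Alt n => F0 n ≤ nfix (h : Equiv.Perm (Fin n))) (bb j j n (F0 n) ^ j)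
    (by positivity) (by
      intro h hh
      exact CHARB j j n (F0 n) hjn le_rfl W hW.2.1 hWL h (not_le.1 hh).le)
  refine key.trans ?_
  refine mul_le_mul_of_nonneg_right ?_ (by positivity)
  have hn0 : (0 : ℝ) < n := by
    have : 0 < n := by omega
    exact_mod_cast this
  have hbad : (Nat.card {w : Fin (64 * j) → (Fin (2 * m) → Fin q × Bool) × (Fin q × Bool) //
      F0 n ≤ nfix ((bwd (wrd x) b w : Alt n) : Equiv.Perm (Fin n))} : ℝ) /
        (Fintype.card ((Fin (2 * m) → Fin q × Bool) × (Fin q × Bool)) : ℝ) ^ (64 * j) ≤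
      (1 / (n : ℝ)) ^ j := by
    have h2 := hG j h1 hj
    simp only [RTLOW.coe_bwd]
    have hpos : (0 : ℝ) < (Fintype.card ((Fin (2 * m) → Fin q × Bool) × (Fin q × Bool)) : ℝ) := by
      have : Nonempty (Fin q) := ⟨⟨0, hq⟩⟩
      exact_mod_cast Fintype.card_pos
    rw [div_le_iff₀ (by positivity)]
    exact h2
  calc bb j j n (F0 n) ^ j + _ ≤ bb j j n (F0 n) ^ j + (1 / (n : ℝ)) ^ j :=
        add_le_add le_rfl hbad
    _ ≤ (bb j j n (F0 n) + 1 / (n : ℝ)) ^ j :=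
        pow_add_pow_le hbb (by positivity) (by omega)
    _ ≤ (Real.exp (-79)) ^ j := pow_le_pow_left₀ (by positivity) hb j
    _ = Real.exp (-(79 * j)) := by
        rw [← Real.exp_nat_mul]
        congr 1
        ring

end RC852
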